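import Pool.Agent.H14R3.KK.Defs

/-! Task CMART of project KK (MP_d47e08_pr). -/

set_option autoImplicit false
open MeasureTheory ProbabilityTheory Filter Topology

namespace KK14

namespace CMARTx

open scoped ENNReal

/-- one-dimensional case -/
lemma one_dim (a : ℝ) :
    (gaussianReal 0 1).withDensity (fun z => ENNReal.ofReal (Real.exp (a * z - a ^ 2 / 2))) =
      gaussianReal a 1 := by
  rw [gaussianReal_of_var_ne_zero 0 one_ne_zero, gaussianReal_of_var_ne_zero a one_ne_zero,
    ← withDensity_mul _ (measurable_gaussianPDF 0 1) (by fun_prop)]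
  congr 1
  ext z
  simp only [Pi.mul_apply, gaussianPDF, gaussianPDFReal]
  rw [← ENNReal.ofReal_mul (by positivity), mul_assoc, ← Real.exp_add]
  congr 3
  simp only [NNReal.coe_one]
  ring

/-- the product of densities -/
lemma pi_dens {ι : Type*} [Fintype ι] (d : ι → ℝ → ℝ≥0∞) (hd : ∀ i, Measurable (d i))
    (μ ν : ι → Measure ℝ) [∀ i, IsProbabilityMeasure (μ i)] [∀ i, IsProbabilityMeasure (ν i)]
    (h : ∀ i, (μ i).withDensity (d i) = ν i) :
    Measure.pi ν = (Measure.pi μ).withDensity (fun z => ∏ i, d i (z i)) := by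
  refine Measure.pi_eq fun s hs => ?_
  have hD : Measurable fun z : ι → ℝ => ∏ i, d i (z i) :=
    Finset.measurable_prod _ fun i _ => (hd i).comp (measurable_pi_apply i)
  rw [withDensity_apply _ (MeasurableSet.univ_pi hs), ← lintegral_indicator
    (MeasurableSet.univ_pi hs)]
  have h1 : ∀ z : ι → ℝ, (Set.univ.pi s).indicator (fun z => ∏ i, d i (z i)) z =
      ∏ i ∈ Finset.univ, (s i).indicator (d i) (z i) := by
    intro z
    by_cases hz : z ∈ Set.univ.pi s
    · rw [Set.indicator_of_mem hz]
      refine Finset.prod_congr rfl fun i _ => ?_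
      rw [Set.indicator_of_mem (hz i (Set.mem_univ i))]
    · rw [Set.indicator_of_notMem hz]
      rw [Set.mem_univ_pi] at hz
      push Not at hz
      obtain ⟨i, hi⟩ := hz
      symm
      exact Finset.prod_eq_zero (Finset.mem_univ i) (Set.indicator_of_notMem hi _)
  simp only [h1]
  have hm : ∀ i, Measurable ((s i).indicator (d i)) := fun i => (hd i).indicator (hs i)
  rw [lintegral_prod_eq_prod_lintegral_of_indepFun Finset.univ
    (fun i (z : ι → ℝ) => (s i).indicator (d i) (z i))
    (iIndepFun_pi (μ := μ) (X := fun i => (s i).indicator (d i)) fun i => (hm i).aemeasurable)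
    (fun i => (hm i).comp (measurable_pi_apply i))]
  refine Finset.prod_congr rfl fun i _ => ?_
  have h2 : ∫⁻ z, (s i).indicator (d i) (z i) ∂(Measure.pi μ) =
      ∫⁻ x, (s i).indicator (d i) x ∂(μ i) :=
    (measurePreserving_eval μ i).lintegral_comp (hm i)
  rw [h2, lintegral_indicator (hs i), ← withDensity_apply _ (hs i), h i]

end CMARTx

open CMARTx in
theorem CMART {ι : Type*} [Fintype ι] (h : ι → ℝ) (f : (ι → ℝ) → ℝ) (hf : Continuous f) :
    ∫ z, f (fun i => z i + h i) ∂(Measure.pi fun _ : ι => gaussianReal 0 1) =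
      ∫ z, f z * Real.exp (∑ i, h i * z i - ∑ i, h i ^ 2 / 2)
        ∂(Measure.pi fun _ : ι => gaussianReal 0 1) := by
  have hshift : (Measure.pi fun _ : ι => gaussianReal 0 1).map (fun z i => z i + h i) =
      Measure.pi fun i : ι => gaussianReal (h i) 1 := by
    have h1 : ∀ i, (gaussianReal 0 1).map (fun x => x + h i) = gaussianReal (h i) 1 := by
      intro i
      rw [gaussianReal_map_add_const, zero_add]
    haveI : ∀ i : ι, SigmaFinite ((gaussianReal 0 1).map (fun x : ℝ => x + h i)) := by
      intro i; rw [h1]; infer_instance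
    rw [Measure.pi_map_pi (μ := fun _ : ι => gaussianReal 0 1) (f := fun i x => x + h i)
      (fun i => by fun_prop)]
    congr 1
    funext i
    exact h1 i
  have hmeas : Measurable fun (z : ι → ℝ) (i : ι) => z i + h i :=
    measurable_pi_lambda _ fun i => (measurable_pi_apply i).add_const _
  have h2 : ∫ z, f (fun i => z i + h i) ∂(Measure.pi fun _ : ι => gaussianReal 0 1) =
      ∫ z, f z ∂(Measure.pi fun i : ι => gaussianReal (h i) 1) := by
    rw [← hshift, integral_map hmeas.aemeasurable hf.aestronglyMeasurable]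
  rw [h2, pi_dens (fun i z => ENNReal.ofReal (Real.exp (h i * z - h i ^ 2 / 2)))
    (fun i => by fun_prop) (fun _ => gaussianReal 0 1) (fun i => gaussianReal (h i) 1)
    (fun i => one_dim (h i))]
  have h3 : ∀ z : ι → ℝ, ∏ i, ENNReal.ofReal (Real.exp (h i * z i - h i ^ 2 / 2)) =
      ENNReal.ofReal (Real.exp (∑ i, h i * z i - ∑ i, h i ^ 2 / 2)) := by
    intro z
    rw [← ENNReal.ofReal_prod_of_nonneg (fun i _ => (Real.exp_pos _).le), ← Real.exp_sum,
      Finset.sum_sub_distrib]
  simp only [h3]
  rw [integral_withDensity_eq_integral_toReal_smul (by fun_prop)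
    (Filter.Eventually.of_forall fun z => ENNReal.ofReal_lt_top)]
  refine integral_congr_ae (Filter.Eventually.of_forall fun z => ?_)
  simp only [smul_eq_mul]
  rw [ENNReal.toReal_ofReal (Real.exp_pos _).le, mul_comm]

end KK14
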